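import Pool.Agent.MWLQ.StmtsA

/-! Row ORD of squad MWLQ: order of two light letters, period `n`. -/

namespace Pool.Agent.MWLQ.H53

open Pool.Agent.Helper14_MV
open Pool.Agent.Helper2_MV (RR)
open Pool.Agent.MWK (pre)
open Pool.Agent.MWGN (nn Tau gh)
open Pool.Agent.MWGQ (pw Z Gn E0 A0 P0)
open Pool.Agent.MWLE (k0)

/-- the conditions of the row -/
structure HH (w : List ℕ) (a b s t : ℕ) : Prop where
  s1 : w.count s = 1
  t1 : w.count t = 1
  a2 : 2 ≤ w.count a
  b2 : 2 ≤ w.count b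
  st : nn w s t = 1
  as : nn w a s = 1
  bs : nn w b s = 1
  bt : nn w b t = 1
  at' : nn w a t = w.count a

/-- the substitution -/
def fs (a b s t : ℕ) (c : ℕ) : List ℕ :=
  if c = a then [0] else if c = b then [1] else if c = s then [2] else if c = t then [3] else []

lemma fs_nil {a b s t : ℕ} : ∀ {Q : List ℕ}, a ∉ Q → b ∉ Q → s ∉ Q → t ∉ Q →
    Q.flatMap (fs a b s t) = []
  | [], _, _, _, _ => rfl
  | c :: Q, ha, hb, hs, ht => by
    simp only [List.mem_cons, not_or] at ha hb hs ht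
    rw [List.flatMap_cons, fs_nil ha.2 hb.2 hs.2 ht.2]
    simp [fs, Ne.symm ha.1, Ne.symm hb.1, Ne.symm hs.1, Ne.symm ht.1]

lemma fs_a {a b s t : ℕ} : ∀ {Q : List ℕ}, b ∉ Q → s ∉ Q → t ∉ Q →
    Q.flatMap (fs a b s t) = List.replicate (Q.count a) 0
  | [], _, _, _ => rfl
  | c :: Q, hb, hs, ht => by
    simp only [List.mem_cons, not_or] at hb hs ht
    rw [List.flatMap_cons, fs_a hb.2 hs.2 ht.2, List.count_cons]
    by_cases h : c = a
    · subst h
      simp [fs, List.replicate_succ]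
    · simp [fs, h, Ne.symm hb.1, Ne.symm hs.1, Ne.symm ht.1]

lemma fs_b {a b s t : ℕ} (hab : a ≠ b) : ∀ {Q : List ℕ}, a ∉ Q → s ∉ Q → t ∉ Q →
    Q.flatMap (fs a b s t) = List.replicate (Q.count b) 1
  | [], _, _, _ => rfl
  | c :: Q, ha, hs, ht => by
    simp only [List.mem_cons, not_or] at ha hs ht
    rw [List.flatMap_cons, fs_b hab ha.2 hs.2 ht.2, List.count_cons]
    by_cases h : c = b
    · subst h
      simp [fs, Ne.symm hab, List.replicate_succ]
    · simp [fs, h, Ne.symm ha.1, Ne.symm hs.1, Ne.symm ht.1]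

/-- decomposition of a word with two letters which occur once -/
lemma two {P : List ℕ} {a b : ℕ} (hab : a ≠ b) (ha : P.count a = 1) (hb : P.count b = 1)
    (h : a ∈ pre P b) : ∃ A B C, P = A ++ a :: (B ++ b :: C) ∧ a ∉ A ∧ a ∉ B ∧ a ∉ C ∧
      b ∉ A ∧ b ∉ B ∧ b ∉ C := by
  have hbP : b ∈ P := List.count_pos_iff.1 (by omega)
  obtain ⟨C, hC⟩ := MWK.mem_split hbP
  obtain ⟨B, hB⟩ := MWK.mem_split h
  have e : P = pre (pre P b) a ++ a :: (B ++ b :: C) := by
    conv_lhs => rw [hC, hB]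
    simp
  generalize pre (pre P b) a = A at e
  have c1 := ha
  have c2 := hb
  rw [e] at c1 c2
  simp only [List.count_append, List.count_cons, beq_self_eq_true, if_true] at c1 c2
  have n1 : (b == a) = false := by simpa using Ne.symm hab
  have n2 : (a == b) = false := by simpa using hab
  rw [n1] at c1
  rw [n2] at c2
  simp only [Bool.false_eq_true, if_false] at c1 c2
  refine ⟨A, B, C, e, ?_, ?_, ?_, ?_, ?_, ?_⟩ <;> rw [← List.count_eq_zero] <;> omega

lemma cnt (x c : ℕ) (l : List ℕ) : (c :: l).count x = (if c = x then 1 else 0) + l.count x := by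
  rw [List.count_cons, Nat.add_comm]
  congr 1
  by_cases h : c = x <;> simp [h]

/-- shape of the image -/
lemma shape {w : List ℕ} {a b s t : ℕ} (hab : a ≠ b) (hst : s ≠ t) (H : HH w a b s t) :
    ∃ i j, 1 ≤ i ∧ 1 ≤ j ∧ w.count a = i + 1 ∧ w.count b = j + 1 ∧
      ((a ∈ pre w b ∧ w.flatMap (fs a b s t) =
        0 :: 1 :: 2 :: (List.replicate i 0 ++ 3 :: List.replicate j 1)) ∨
       (a ∉ pre w b ∧ w.flatMap (fs a b s t) =
        1 :: 0 :: 2 :: (List.replicate i 0 ++ 3 :: List.replicate j 1))) := by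
  have hsa : s ≠ a := by
    rintro rfl
    have h1 := H.s1
    have h2 := H.a2
    omega
  have hsb : s ≠ b := by
    rintro rfl
    have h1 := H.s1
    have h2 := H.b2
    omega
  have hta : t ≠ a := by
    rintro rfl
    have h1 := H.t1
    have h2 := H.a2
    omega
  have htb : t ≠ b := by
    rintro rfl
    have h1 := H.t1
    have h2 := H.b2
    omega
  have htw : t ∈ w := List.count_pos_iff.1 (by rw [H.t1]; exact Nat.one_pos)
  have hsp : s ∈ pre w t := List.count_pos_iff.1 (by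
    have := H.st
    unfold nn at this
    rw [this]
    exact Nat.one_pos)
  obtain ⟨R, hR⟩ := MWK.mem_split htw
  obtain ⟨Q, hQ⟩ := MWK.pre_mono hsp
  have hw : w = pre w s ++ s :: (Q ++ t :: R) := by
    conv_lhs => rw [hR, hQ]
    simp
  have h1 := H.s1
  have h2 := H.t1
  have h3 := H.a2
  have h4 := H.b2
  have h5 := H.st
  have h6 := H.as
  have h7 := H.bs
  have h8 := H.bt
  have h9 := H.at'
  have h10 : t ∉ pre w t := MWK.not_mem_pre w t
  have h11 : s ∉ pre w s := MWK.not_mem_pre w s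
  unfold nn at h5 h6 h7 h8 h9
  rw [hQ] at h5 h8 h9 h10
  obtain ⟨P, hP⟩ : ∃ P, P = pre w s := ⟨_, rfl⟩
  rw [← hP] at hw h5 h6 h7 h8 h9 h10 h11
  have k1 : w.count a = (P ++ s :: (Q ++ t :: R)).count a := by
    conv_lhs => rw [hw]
  have k2 : w.count b = (P ++ s :: (Q ++ t :: R)).count b := by
    conv_lhs => rw [hw]
  rw [hw] at h1 h2 h3 h4 h9
  have h12 : (P ++ s :: Q).count t = 0 := List.count_eq_zero.2 h10
  have h13 : P.count s = 0 := List.count_eq_zero.2 h11
  simp only [List.count_append, cnt, if_true, if_neg hsa, if_neg hsb, if_neg hta, if_neg htb,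
    if_neg hst, if_neg (Ne.symm hst)] at h1 h2 h3 h4 h5 h8 h9 h12 k1 k2
  have q1 : b ∉ Q := List.count_eq_zero.1 (by omega)
  have q2 : s ∉ Q := List.count_eq_zero.1 (by omega)
  have q3 : t ∉ Q := List.count_eq_zero.1 (by omega)
  have r1 : a ∉ R := List.count_eq_zero.1 (by omega)
  have r2 : s ∉ R := List.count_eq_zero.1 (by omega)
  have r3 : t ∉ R := List.count_eq_zero.1 (by omega)
  have p1 : t ∉ P := List.count_eq_zero.1 (by omega)
  have e1 : w.flatMap (fs a b s t) = P.flatMap (fs a b s t) ++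
      2 :: (List.replicate (Q.count a) 0 ++ 3 :: List.replicate (R.count b) 1) := by
    conv_lhs => rw [hw]
    rw [List.flatMap_append, List.flatMap_cons, List.flatMap_append, List.flatMap_cons,
      fs_a q1 q2 q3, fs_b hab r1 r2 r3]
    have e2 : fs a b s t s = [2] := by simp [fs, hsa, hsb]
    have e3 : fs a b s t t = [3] := by simp [fs, hta, htb, Ne.symm hst]
    rw [e2, e3]
    simp
  have haP : a ∈ P := List.count_pos_iff.1 (by omega)
  have hbP : b ∈ P := List.count_pos_iff.1 (by omega)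
  have e4 : pre w b = pre P b := MWK.pre_of_prefix hw hbP
  have fa : fs a b s t a = [0] := by simp [fs]
  have fb : fs a b s t b = [1] := by simp [fs, Ne.symm hab]
  refine ⟨Q.count a, R.count b, by omega, by omega, by omega, by omega, ?_⟩
  rcases MWK.pre_total haP hab with h | h
  · left
    refine ⟨by rw [e4]; exact h, ?_⟩
    obtain ⟨A, B, C, e, a1, a2, a3, b1, b2, b3⟩ := two hab h6 h7 h
    rw [e1]
    have sP : s ∉ A ∧ s ∉ B ∧ s ∉ C := by
      rw [e] at h11
      simp only [List.mem_append, List.mem_cons, not_or] at h11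
      exact ⟨h11.1, h11.2.2.1, h11.2.2.2.2⟩
    have tP : t ∉ A ∧ t ∉ B ∧ t ∉ C := by
      rw [e] at p1
      simp only [List.mem_append, List.mem_cons, not_or] at p1
      exact ⟨p1.1, p1.2.2.1, p1.2.2.2.2⟩
    rw [e, List.flatMap_append, List.flatMap_cons, List.flatMap_append, List.flatMap_cons,
      fs_nil a1 b1 sP.1 tP.1, fs_nil a2 b2 sP.2.1 tP.2.1, fs_nil a3 b3 sP.2.2 tP.2.2, fa, fb]
    rfl
  · right
    refine ⟨by rw [e4]; exact MWK.pre_asymm h, ?_⟩
    obtain ⟨A, B, C, e, b1, b2, b3, a1, a2, a3⟩ := two (Ne.symm hab) h7 h6 h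
    rw [e1]
    have sP : s ∉ A ∧ s ∉ B ∧ s ∉ C := by
      rw [e] at h11
      simp only [List.mem_append, List.mem_cons, not_or] at h11
      exact ⟨h11.1, h11.2.2.1, h11.2.2.2.2⟩
    have tP : t ∉ A ∧ t ∉ B ∧ t ∉ C := by
      rw [e] at p1
      simp only [List.mem_append, List.mem_cons, not_or] at p1
      exact ⟨p1.1, p1.2.2.1, p1.2.2.2.2⟩
    rw [e, List.flatMap_append, List.flatMap_cons, List.flatMap_append, List.flatMap_cons,
      fs_nil a1 b1 sP.1 tP.1, fs_nil a2 b2 sP.2.1 tP.2.1, fs_nil a3 b3 sP.2.2 tP.2.2, fa, fb]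
    rfl

section
variable {β : FIC}

lemma tr {u v w : List ℕ} (h : RR β u v) (h' : RR β v w) : RR β u w := β.trans h h'

lemma pw_one (c : ℕ) (k : ℕ) : pw k [c] = List.replicate k c := by
  induction k with
  | zero => simp [pw]
  | succ k ih =>
    have e : pw (k + 1) [c] = [c] ++ pw k [c] := by simp [pw, List.replicate_succ]
    rw [e, ih, List.replicate_succ]
    rfl

lemma gmr {n : ℕ} (h1 : MWGQ.PwxStmt) (hG : Gn n β) (c : ℕ) (u : List ℕ) (i : ℕ) (hi : 1 ≤ i)
    (hm : i ≡ 1 [MOD n]) : RR β (c :: (u ++ List.replicate i c)) (c :: (u ++ [c])) := by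
  have h := (h1 n β hG).2.1 [c] u i 1 hi le_rfl hm
  rw [pw_one, pw_one] at h
  exact h

lemma nf1 {n : ℕ} (h1 : MWGQ.PwxStmt) (hG : Gn n β) {i j : ℕ} (hi : 1 ≤ i) (hj : 1 ≤ j)
    (mi : i ≡ 1 [MOD n]) (mj : j ≡ 1 [MOD n]) :
    RR β (0 :: 1 :: 2 :: (List.replicate i 0 ++ 3 :: List.replicate j 1)) [0, 1, 2, 0, 3, 1] := by
  have h1' := (gmr h1 hG 0 [1, 2] i hi mi).append (RR.refl (β := β) (3 :: List.replicate j 1))
  have h2 := (RR.refl (β := β) [0]).append (gmr h1 hG 1 [2, 0, 3] j hj mj)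
  refine tr ?_ h2
  simpa using h1'

lemma nf2 {n : ℕ} (h1 : MWGQ.PwxStmt) (hG : Gn n β) {i j : ℕ} (hi : 1 ≤ i) (hj : 1 ≤ j)
    (mi : i ≡ 1 [MOD n]) (mj : j ≡ 1 [MOD n]) :
    RR β (1 :: 0 :: 2 :: (List.replicate i 0 ++ 3 :: List.replicate j 1)) [1, 0, 2, 0, 3, 1] := by
  have h1' := (RR.refl (β := β) [1]).append
    ((gmr h1 hG 0 [2] i hi mi).append (RR.refl (β := β) (3 :: List.replicate j 1)))
  have h2 := gmr h1 hG 1 [0, 2, 0, 3] j hj mj
  refine tr ?_ h2
  simpa using h1'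

/-- the exponents are made congruent to `1` -/
lemma adj {n i i' j j' : ℕ} (hn : 1 ≤ n) (hi : i ≡ i' [MOD n]) (hj : j ≡ j' [MOD n])
    {u u' : List ℕ} {w w' : List ℕ} (hu : ∀ c ∈ u, c = 0 ∨ c = 1 ∨ c = 2)
    (hu' : ∀ c ∈ u', c = 0 ∨ c = 1 ∨ c = 2)
    (e : w = u ++ (List.replicate i 0 ++ 3 :: List.replicate j 1))
    (e' : w' = u' ++ (List.replicate i' 0 ++ 3 :: List.replicate j' 1)) (h : RR β w w') :
    ∃ a a' b b' : ℕ, 1 ≤ a ∧ 1 ≤ a' ∧ 1 ≤ b ∧ 1 ≤ b' ∧ a ≡ 1 [MOD n] ∧ a' ≡ 1 [MOD n] ∧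
      b ≡ 1 [MOD n] ∧ b' ≡ 1 [MOD n] ∧
      RR β (u ++ (List.replicate a 0 ++ 3 :: List.replicate b 1))
        (u' ++ (List.replicate a' 0 ++ 3 :: List.replicate b' 1)) := by
  obtain ⟨l, hl⟩ : ∃ l, l = (n - 1) * i + 1 := ⟨_, rfl⟩
  obtain ⟨r, hr⟩ : ∃ r, r = (n - 1) * j + 1 := ⟨_, rfl⟩
  have m1 : i + l ≡ 1 [MOD n] := by
    obtain ⟨q, rfl⟩ : ∃ q, n = q + 1 := ⟨n - 1, by omega⟩
    have e1 : i + l = 1 + (q + 1) * i := by
      rw [hl]
      have : q + 1 - 1 = q := by omega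
      rw [this]
      ring
    rw [e1]
    have h2 : (q + 1) * i ≡ 0 [MOD (q + 1)] := (Nat.modEq_zero_iff_dvd).2 ⟨i, rfl⟩
    simpa using (Nat.ModEq.refl 1).add h2
  have m2 : j + r ≡ 1 [MOD n] := by
    obtain ⟨q, rfl⟩ : ∃ q, n = q + 1 := ⟨n - 1, by omega⟩
    have e1 : j + r = 1 + (q + 1) * j := by
      rw [hr]
      have : q + 1 - 1 = q := by omega
      rw [this]
      ring
    rw [e1]
    have h2 : (q + 1) * j ≡ 0 [MOD (q + 1)] := (Nat.modEq_zero_iff_dvd).2 ⟨j, rfl⟩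
    simpa using (Nat.ModEq.refl 1).add h2
  have m3 : i' + l ≡ 1 [MOD n] := (hi.symm.add_right l).trans m1
  have m4 : j' + r ≡ 1 [MOD n] := (hj.symm.add_right r).trans m2
  refine ⟨i + l, i' + l, j + r, j' + r, by omega, by omega, by omega, by omega, m1, m3, m2, m4, ?_⟩
  obtain ⟨g, hg⟩ : ∃ g : ℕ → List ℕ, g = fun c => if c = 3 then List.replicate l 0 ++ [3] else [c] :=
    ⟨_, rfl⟩
  have gid : ∀ u : List ℕ, (∀ c ∈ u, c ≠ 3) → u.flatMap g = u := by
    intro u hu
    induction u with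
    | nil => rfl
    | cons c u ih =>
      rw [List.flatMap_cons, ih (fun d hd => hu d (List.mem_cons_of_mem c hd))]
      have := hu c (List.mem_cons_self)
      rw [hg]
      simp [this]
  have g3 : g 3 = List.replicate l 0 ++ [3] := by
    rw [hg]
    simp
  have key : ∀ (v : List ℕ) (x y : ℕ), (∀ c ∈ v, c = 0 ∨ c = 1 ∨ c = 2) →
      (v ++ (List.replicate x 0 ++ 3 :: List.replicate y 1)).flatMap g ++ List.replicate r 1 =
        v ++ (List.replicate (x + l) 0 ++ 3 :: List.replicate (y + r) 1) := by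
    intro v x y hv
    rw [List.flatMap_append, List.flatMap_append, List.flatMap_cons, g3,
      gid v (fun c hc => by rcases hv c hc with h | h | h <;> omega),
      gid _ (fun c hc => by have := List.eq_of_mem_replicate hc; omega),
      gid _ (fun c hc => by have := List.eq_of_mem_replicate hc; omega),
      List.replicate_add x l, List.replicate_add y r]
    simp only [List.append_assoc, List.cons_append, List.nil_append]
  have h2 := (RR.sub g h).append (RR.refl (β := β) (List.replicate r 1))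
  rw [e, e', key u i j hu, key u' i' j' hu'] at h2
  exact h2

lemma keep {n : ℕ} (h0 : MWGQ.CntStmt) (h1 : MWGQ.OlrStmt) (hG : Gn n β) (hE : ¬ E0 n β)
    {w w' : List ℕ} (hw : RR β w w') {a b s t : ℕ} (hst : s ≠ t) (H : HH w a b s t) :
    HH w' a b s t := by
  have hc : ∀ c, 2 ≤ w.count c → 2 ≤ w'.count c := fun c hc => (h0 n β hG w w' hw c).2.1 hc
  have sim : ∀ c, w.count c = 1 → w'.count c = 1 := fun c hc => by
    have := (h0 n β hG w w' hw c).1 (by omega)
    omega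
  have hsa : a ≠ s := by
    rintro rfl
    have h1 := H.s1
    have h2 := H.a2
    omega
  have hsb : b ≠ s := by
    rintro rfl
    have h1 := H.s1
    have h2 := H.b2
    omega
  have hta : a ≠ t := by
    rintro rfl
    have h1 := H.t1
    have h2 := H.a2
    omega
  have htb : b ≠ t := by
    rintro rfl
    have h1 := H.t1
    have h2 := H.b2
    omega
  exact ⟨sim s H.s1, sim t H.t1, hc a H.a2, hc b H.b2,
    (h1 n β hG hE w w' hw s t H.t1 hst).2.1.1 H.st,
    (h1 n β hG hE w w' hw a s H.s1 hsa).2.1.1 H.as,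
    (h1 n β hG hE w w' hw b s H.s1 hsb).2.1.1 H.bs,
    (h1 n β hG hE w w' hw b t H.t1 htb).2.1.1 H.bt,
    (h1 n β hG hE w w' hw a t H.t1 hta).2.2.1 H.at'⟩

end

theorem ord (hp : MWGQ.PwxStmt) (h0 : MWGQ.CntStmt) (h1 : MWGQ.OlrStmt) : OrdStmt := by
  intro n β hG hE hk w w' hw a b s t hs ht hst hab ha hb hst1 has hbs hbt hat
  have H : HH w a b s t := ⟨hs, ht, ha, hb, hst1, has, hbs, hbt, hat⟩
  have H' : HH w' a b s t := keep h0 h1 hG hE hw hst H
  obtain ⟨i, j, hi, hj, ci, cj, e⟩ := shape hab hst H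
  obtain ⟨i', j', hi', hj', ci', cj', e'⟩ := shape hab hst H'
  have hs2 := hw.sub (fs a b s t)
  have mi : i ≡ i' [MOD n] := by
    have h := (h0 n β hG w w' hw a).2.2
    rw [ci, ci'] at h
    exact Nat.ModEq.add_right_cancel' 1 h
  have mj : j ≡ j' [MOD n] := by
    have h := (h0 n β hG w w' hw b).2.2
    rw [cj, cj'] at h
    exact Nat.ModEq.add_right_cancel' 1 h
  rcases e with ⟨m, e⟩ | ⟨m, e⟩ <;> rcases e' with ⟨m', e'⟩ | ⟨m', e'⟩
  · exact ⟨fun _ => m', fun _ => m⟩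
  · exfalso
    apply hk
    obtain ⟨x, x', y, y', hx, hx', hy, hy', mx, mx', my, my', h⟩ := adj (u := [0, 1, 2])
      (u' := [1, 0, 2]) hG.pos mi mj (by simp) (by simp) e e' hs2
    exact tr (nf1 hp hG hx hy mx my).symm (tr h (nf2 hp hG hx' hy' mx' my'))
  · exfalso
    apply hk
    obtain ⟨x, x', y, y', hx, hx', hy, hy', mx, mx', my, my', h⟩ := adj (u := [1, 0, 2])
      (u' := [0, 1, 2]) hG.pos mi mj (by simp) (by simp) e e' hs2
    exact (tr (nf2 hp hG hx hy mx my).symm (tr h (nf1 hp hG hx' hy' mx' my'))).symm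
  · exact ⟨fun h => absurd h m, fun h => absurd h m'⟩

end Pool.Agent.MWLQ.H53
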